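import Pool.Agent.HMT.Stmts

/-!
# Squad HMT, row NIS: the two graphs are not isomorphic
-/

set_option autoImplicit false

open scoped Classical

namespace Pool.Agent.HMT.H79

open Pool.Agent.HMT

section gen

variable {V W : Type} {G : SimpleGraph V} {H : SimpleGraph W}

/-- the degree -/
noncomputable def dg (G : SimpleGraph V) (w : V) : ℕ := Nat.card {u // G.Adj w u}

/-- the number of the neighbours of degree one -/
noncomputable def lf (G : SimpleGraph V) (v : V) : ℕ :=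
  Nat.card {w // G.Adj v w ∧ Nat.card {u // G.Adj w u} = 1}

theorem dg_iso (φ : G ≃g H) (w : V) :
    Nat.card {u // H.Adj (φ w) u} = Nat.card {u // G.Adj w u} := by
  refine (Nat.card_congr (Equiv.subtypeEquiv φ.toEquiv fun u => ?_)).symm
  exact (φ.map_adj_iff (v := w) (w := u)).symm

theorem adj_congr {a b a' b' : V} (h : G.Adj a b) (ha : a = a') (hb : b = b') : G.Adj a' b' := by
  subst ha
  subst hb
  exact h

theorem lf_iso (φ : G ≃g H) (v : V) : lf H (φ v) = lf G v := by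
  unfold lf
  refine (Nat.card_congr (Equiv.subtypeEquiv φ.toEquiv fun u => ?_)).symm
  have h1 : H.Adj (φ v) (φ u) ↔ G.Adj v u := φ.map_adj_iff
  have h2 := dg_iso φ u
  change (G.Adj v u ∧ _) ↔ (H.Adj (φ v) (φ u) ∧ Nat.card {w // H.Adj (φ u) w} = 1)
  rw [h1, h2]

end gen

variable {q T : ℕ}

theorem kr_lt (b : Fin q) (t : Bool) : kr b.val t ≤ 2 * q + 1 := by
  have := b.isLt
  unfold kr
  cases t <;> simp <;> omega

theorem kr_pos (b : ℕ) (t : Bool) : 2 ≤ kr b t := by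
  unfold kr
  omega

theorem kr_inj {b b' : ℕ} {t t' : Bool} (h : kr b t = kr b' t') : b = b' ∧ t = t' := by
  unfold kr at h
  cases t <;> cases t' <;> simp at h ⊢ <;> omega

theorem kx_ge (k : KX q T) : 2 * q + 3 ≤ kx q T k := by
  unfold kx
  omega

theorem kx_inj {k k' : KX q T} (h : kx q T k = kx q T k') : k = k' := by
  unfold kx at h
  have h1 : (Fintype.equivFin (KX q T) k).val = (Fintype.equivFin (KX q T) k').val := by omega
  exact (Fintype.equivFin (KX q T)).injective (Fin.ext h1)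

section cls

variable (lea : LeaStmt) {ε : ℤˣ}
include lea

theorem clsX (v : (cf q T).Vert ε) (k : KX q T)
    (h : lf ((cf q T).Gr ε Finset.univ) v = kx q T k) :
    ∃ g, v = Sum.inl (g, (⟨k, 0⟩ : XX q T)) := by
  obtain ⟨h1, h2, h3, h4, h5, h6⟩ := lea q T ε (lf ((cf q T).Gr ε Finset.univ)) (fun _ => rfl)
  have hk := kx_ge k
  rcases v with (⟨g, ⟨k', c⟩⟩ | j | ⟨j, c | ⟨b, c⟩⟩)
  · by_cases hc : c = 0
    · subst hc
      have h0 := h1 g k'
      have h00 : kx q T k = kx q T k' := h.symm.trans h0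
      rw [kx_inj h00]
      exact ⟨g, rfl⟩
    · have h0 := h2 g k' c hc
      have h00 : kx q T k = 0 := h.symm.trans h0
      omega
  · have h00 : kx q T k = kh q := h.symm.trans (h3 j)
    unfold kh at h00
    omega
  · have h00 : kx q T k = 0 := h.symm.trans (h4 j c)
    omega
  · by_cases hc : c = 0
    · subst hc
      have h00 : kx q T k = kr b.val (j b) := h.symm.trans (h5 j b)
      have := kr_lt b (j b)
      omega
    · have h00 : kx q T k = 0 := h.symm.trans (h6 j b c hc)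
      omega

theorem clsJ (v : (cf q T).Vert ε) (h : lf ((cf q T).Gr ε Finset.univ) v = kh q) :
    ∃ j : Fin q → Bool, v = Sum.inr (Sum.inl j) := by
  obtain ⟨h1, h2, h3, h4, h5, h6⟩ := lea q T ε (lf ((cf q T).Gr ε Finset.univ)) (fun _ => rfl)
  have hk : kh q = 2 * q + 2 := rfl
  rcases v with (⟨g, ⟨k', c⟩⟩ | j | ⟨j, c | ⟨b, c⟩⟩)
  · by_cases hc : c = 0
    · subst hc
      have h00 : kh q = kx q T k' := h.symm.trans (h1 g k')
      have := kx_ge k'
      omega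
    · have h00 : kh q = 0 := h.symm.trans (h2 g k' c hc)
      omega
  · exact ⟨j, rfl⟩
  · have h00 : kh q = 0 := h.symm.trans (h4 j c)
    omega
  · by_cases hc : c = 0
    · subst hc
      have h00 : kh q = kr b.val (j b) := h.symm.trans (h5 j b)
      have := kr_lt b (j b)
      omega
    · have h00 : kh q = 0 := h.symm.trans (h6 j b c hc)
      omega

theorem clsR (v : (cf q T).Vert ε) (b : Fin q) (t : Bool)
    (h : lf ((cf q T).Gr ε Finset.univ) v = kr b.val t) :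
    ∃ j : Fin q → Bool, j b = t ∧ v = Sum.inr (Sum.inr (⟨j, Sum.inr ⟨b, 0⟩⟩ : RR q)) := by
  obtain ⟨h1, h2, h3, h4, h5, h6⟩ := lea q T ε (lf ((cf q T).Gr ε Finset.univ)) (fun _ => rfl)
  have hk := kr_lt b t
  have hk' := kr_pos b.val t
  rcases v with (⟨g, ⟨k', c⟩⟩ | j | ⟨j, c | ⟨b', c⟩⟩)
  · by_cases hc : c = 0
    · subst hc
      have h00 : kr b.val t = kx q T k' := h.symm.trans (h1 g k')
      have := kx_ge k'
      omega
    · have h00 : kr b.val t = 0 := h.symm.trans (h2 g k' c hc)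
      omega
  · have h00 : kr b.val t = kh q := h.symm.trans (h3 j)
    unfold kh at h00
    omega
  · have h00 : kr b.val t = 0 := h.symm.trans (h4 j c)
    omega
  · by_cases hc : c = 0
    · subst hc
      have h00 : kr b.val t = kr b'.val (j b') := h.symm.trans (h5 j b')
      obtain ⟨e1, e2⟩ := kr_inj h00
      have e3 : b = b' := Fin.ext e1
      subst e3
      exact ⟨j, e2.symm, rfl⟩
    · have h00 : kr b.val t = 0 := h.symm.trans (h6 j b' c hc)
      omega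

end cls

/-- the label of a vertex of the trees -/
def lab (p : (Fin q → Bool) ⊕ RR q) : Fin q → Bool := Sum.elim id Sigma.fst p

theorem rpar_lab (r : RR q) : lab (rpar q r) = r.1 := by
  obtain ⟨j, c | ⟨b, c⟩⟩ := r
  · rfl
  · unfold rpar lab
    dsimp only
    split_ifs <;> rfl

theorem adj_lab {ε : ℤˣ} {p p' : (Fin q → Bool) ⊕ RR q}
    (h : ((cf q T).Gr ε Finset.univ).Adj (Sum.inr p) (Sum.inr p')) : lab p = lab p' := by
  obtain ⟨-, h1 | h1⟩ := (SimpleGraph.fromRel_adj _ _ _).1 h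
  · rcases p' with j | r
    · exact absurd h1 (by cases p <;> exact id)
    · have h2 : p = rpar q r := h1.1
      rw [h2, rpar_lab]
      rfl
  · rcases p with j | r
    · exact absurd h1 (by cases p' <;> exact id)
    · have h2 : p' = rpar q r := h1.1
      rw [h2, rpar_lab]
      rfl

theorem adj_g {ε : ℤˣ} {g g' : {g : Equiv.Perm (cf q T).J // Equiv.Perm.sign g = ε}}
    {x x' : XX q T}
    (h : ((cf q T).Gr ε Finset.univ).Adj (Sum.inl (g, x)) (Sum.inl (g', x'))) : g = g' := by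
  obtain ⟨-, h1 | h1⟩ := (SimpleGraph.fromRel_adj _ _ _).1 h
  · exact h1.1
  · exact h1.1.symm

theorem adj_end {ε : ℤˣ} {g : {g : Equiv.Perm (cf q T).J // Equiv.Perm.sign g = ε}}
    {x : XX q T} {j : Fin q → Bool} :
    ((cf q T).Gr ε Finset.univ).Adj (Sum.inl (g, x)) (Sum.inr (Sum.inl j)) ↔
      x = (cf q T).e (g.1.symm j) := by
  constructor
  · intro h
    obtain ⟨-, h1 | h1⟩ := (SimpleGraph.fromRel_adj _ _ _).1 h
    · exact h1
    · exact absurd h1 id
  · intro h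
    exact (SimpleGraph.fromRel_adj _ _ _).2 ⟨Sum.inl_ne_inr, Or.inl h⟩

theorem adj_par {ε : ℤˣ} (r : RR q) :
    ((cf q T).Gr ε Finset.univ).Adj (Sum.inr (rpar q r)) (Sum.inr (Sum.inr r)) := by
  refine (SimpleGraph.fromRel_adj _ _ _).2 ⟨?_, Or.inl ⟨rfl, Finset.mem_univ _⟩⟩
  intro h
  have h1 : rpar q r = Sum.inr r := Sum.inr_injective h
  have := rdep_lt q r r h1
  omega

theorem adj_S {ε : ℤˣ} (g : {g : Equiv.Perm (cf q T).J // Equiv.Perm.sign g = ε})
    {x y : XX q T} (hne : x ≠ y) (h : srel q T x y) :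
    ((cf q T).Gr ε Finset.univ).Adj (Sum.inl (g, x)) (Sum.inl (g, y)) := by
  refine (SimpleGraph.fromRel_adj _ _ _).2 ⟨?_, Or.inl ⟨rfl, ?_⟩⟩
  · intro h1
    exact hne (congrArg Prod.snd (Sum.inl_injective h1))
  · exact (SimpleGraph.fromRel_adj _ _ _).2 ⟨hne, Or.inl h⟩

theorem nis (lea : LeaStmt) : NisStmt := by
  rintro q T ⟨φ⟩
  have hlf := lf_iso φ
  obtain ⟨h1, h2, h3, h4, h5, h6⟩ := lea q T 1 (lf ((cf q T).Gr 1 Finset.univ)) (fun _ => rfl)
  have hadj : ∀ {v w}, ((cf q T).Gr 1 Finset.univ).Adj v w →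
      ((cf q T).Gr (-1) Finset.univ).Adj (φ v) (φ w) := fun h => φ.map_adj_iff.2 h
  -- (a)
  have ha : ∀ j : Fin q → Bool, φ (Sum.inr (Sum.inl j)) = Sum.inr (Sum.inl j) := by
    intro j
    obtain ⟨j', hj'⟩ := clsJ lea (φ (Sum.inr (Sum.inl j))) (by rw [hlf]; exact h3 j)
    have hR : ∀ b : Fin q, ∃ j₁ : Fin q → Bool, j₁ b = j b ∧
        φ (Sum.inr (Sum.inr (⟨j, Sum.inr ⟨b, 0⟩⟩ : RR q))) =
          Sum.inr (Sum.inr (⟨j₁, Sum.inr ⟨b, 0⟩⟩ : RR q)) := by
      intro b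
      exact clsR lea _ b (j b) (by rw [hlf]; exact h5 j b)
    have key : ∀ (n : ℕ) (hn : n < q),
        φ (Sum.inr (Sum.inr (⟨j, Sum.inr ⟨⟨n, hn⟩, 0⟩⟩ : RR q))) =
          Sum.inr (Sum.inr (⟨j', Sum.inr ⟨⟨n, hn⟩, 0⟩⟩ : RR q)) := by
      intro n
      induction n with
      | zero =>
        intro hn
        obtain ⟨j₁, e1, e2⟩ := hR ⟨0, hn⟩
        have h8 : rpar q (⟨j, Sum.inr ⟨⟨0, hn⟩, 0⟩⟩ : RR q) = Sum.inl j := by
          simp [rpar]
        have h7 := hadj (adj_congr (adj_par (T := T) (ε := 1) (⟨j, Sum.inr ⟨⟨0, hn⟩, 0⟩⟩ : RR q))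
          (congrArg Sum.inr h8) rfl)
        have h9 : j' = j₁ := adj_lab (adj_congr h7 hj' e2)
        rw [e2, h9]
      | succ n ih =>
        intro hn
        obtain ⟨j₁, e1, e2⟩ := hR ⟨n + 1, hn⟩
        have h8 : rpar q (⟨j, Sum.inr ⟨⟨n + 1, hn⟩, 0⟩⟩ : RR q) =
            Sum.inr (⟨j, Sum.inr ⟨⟨n, Nat.lt_of_succ_lt hn⟩, 0⟩⟩ : RR q) := by
          simp [rpar]
        have h7 := hadj (adj_congr (adj_par (T := T) (ε := 1)
          (⟨j, Sum.inr ⟨⟨n + 1, hn⟩, 0⟩⟩ : RR q)) (congrArg Sum.inr h8) rfl)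
        have h9 : j' = j₁ := adj_lab (adj_congr h7 (ih (Nat.lt_of_succ_lt hn)) e2)
        rw [e2, h9]
    have hjj : j' = j := by
      funext b
      obtain ⟨j₁, e1, e2⟩ := hR b
      have h7 := key b.val b.isLt
      rw [e2] at h7
      have h8 := Sum.inr_injective (Sum.inr_injective h7)
      have h9 : j₁ = j' := congrArg Sigma.fst h8
      rw [← h9, e1]
    rw [hj', hjj]
  -- (b)
  obtain ⟨g₀, hg₀⟩ : ∃ g₀ : {g : Equiv.Perm (cf q T).J // Equiv.Perm.sign g = 1}, g₀.1 = 1 :=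
    ⟨⟨1, Equiv.Perm.sign_one⟩, rfl⟩
  obtain ⟨g', hg'⟩ := clsX lea (φ (Sum.inl (g₀, (⟨none, 0⟩ : XX q T)))) none
    (by rw [hlf]; exact h1 g₀ none)
  have hleg : ∀ (i : Fin q → Bool) (n : ℕ) (hn : n < T + 1),
      φ (Sum.inl (g₀, (⟨some (i, ⟨n, hn⟩), 0⟩ : XX q T))) =
        Sum.inl (g', (⟨some (i, ⟨n, hn⟩), 0⟩ : XX q T)) := by
    intro i n
    induction n with
    | zero =>
      intro hn
      obtain ⟨g₁, e1⟩ := clsX lea (φ (Sum.inl (g₀, (⟨some (i, ⟨0, hn⟩), 0⟩ : XX q T))))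
        (some (i, ⟨0, hn⟩)) (by rw [hlf]; exact h1 g₀ _)
      have h7 := hadj (adj_S g₀ (x := (⟨none, 0⟩ : XX q T))
        (y := (⟨some (i, ⟨0, hn⟩), 0⟩ : XX q T)) (by
          intro h
          have := congrArg Sigma.fst h
          exact absurd this (by simp)) (Or.inr ⟨rfl, rfl, Or.inl ⟨rfl, i, rfl⟩⟩))
      rw [hg', e1] at h7
      rw [e1, adj_g h7]
    | succ n ih =>
      intro hn
      obtain ⟨g₁, e1⟩ := clsX lea (φ (Sum.inl (g₀, (⟨some (i, ⟨n + 1, hn⟩), 0⟩ : XX q T))))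
        (some (i, ⟨n + 1, hn⟩)) (by rw [hlf]; exact h1 g₀ _)
      have h7 := hadj (adj_S g₀ (x := (⟨some (i, ⟨n, Nat.lt_of_succ_lt hn⟩), 0⟩ : XX q T))
        (y := (⟨some (i, ⟨n + 1, hn⟩), 0⟩ : XX q T)) (by
          intro h
          have := congrArg Sigma.fst h
          simp at this) (Or.inr ⟨rfl, rfl, Or.inr ⟨i, ⟨n, Nat.lt_of_succ_lt hn⟩, ⟨n + 1, hn⟩,
            rfl, rfl, rfl⟩⟩))
      rw [ih, e1] at h7
      rw [e1, adj_g h7]
  have hfix : ∀ i : Fin q → Bool, g'.1.symm i = i := by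
    intro i
    have h7 : ((cf q T).Gr 1 Finset.univ).Adj
        (Sum.inl (g₀, (⟨some (i, ⟨T, Nat.lt_succ_self T⟩), 0⟩ : XX q T)))
        (Sum.inr (Sum.inl i)) := by
      rw [adj_end, hg₀]
      rfl
    have h8 := adj_end.1 (adj_congr (hadj h7) (hleg i T (Nat.lt_succ_self T)) (ha i))
    have h9 : (some (i, ⟨T, Nat.lt_succ_self T⟩) : KX q T) =
        some (g'.1.symm i, Fin.last T) := congrArg Sigma.fst h8
    have h10 := congrArg Prod.fst (Option.some_injective _ h9)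
    exact h10.symm
  have hg1 : g'.1 = 1 := by
    have h7 : g'.1.symm = 1 := Equiv.ext hfix
    have h8 : g'.1⁻¹ = 1 := h7
    exact inv_eq_one.1 h8
  have h9 := g'.2
  rw [hg1, Equiv.Perm.sign_one] at h9
  exact absurd h9 (by decide)

end Pool.Agent.HMT.H79
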